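import Pool.Agent.Helper60.FF.StmtsC

/-!
# Module EDV: a good disc inside a disc with constant reduction
-/

set_option autoImplicit false

namespace Pool.Agent.Helper60.FF

open Polynomial

/-- the module statement -/
theorem st_EDV (hL3 : ST_L3) (hDIC : ST_DIC) : ST_EDV := by
  intro p n hp hPP K v b ϖ φ φ' hϖ hGD hvb hCT
  obtain ⟨hR, hφ0, hφn, hgd⟩ := hGD
  have hD := (hDIC p n hPP K).1
  have hbv : ‖(b : ℂ_[p]) - v‖ ≤ ‖(ϖ : ℂ_[p])‖ := by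
    rw [norm_sub_rev]
    exact hvb
  have hself : ‖(v : ℂ_[p]) - v‖ < ‖(ϖ : ℂ_[p])‖ := by
    rw [sub_self, norm_zero]
    exact hR
  have hCTv : CT K v ϖ φ' := (hD b ϖ v ϖ hϖ hϖ rfl hbv φ' hCT).1
  have hpn : ‖(p : ℂ_[p])‖ = (p : ℝ)⁻¹ := norm_p
  have hp1 : (1 : ℝ) < p := by exact_mod_cast hp.out.one_lt
  have hp0 : (0 : ℝ) < (p : ℝ)⁻¹ := inv_pos.2 (by linarith)
  have hplt : (p : ℝ)⁻¹ < 1 := inv_lt_one_of_one_lt₀ hp1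
  have hcoe : (((p : K.A) * ϖ : K.A) : ℂ_[p]) = (p : ℂ_[p]) * (ϖ : ℂ_[p]) := by
    push_cast
    rfl
  have hnorm : ‖(((p : K.A) * ϖ : K.A) : ℂ_[p])‖ = (p : ℝ)⁻¹ * ‖(ϖ : ℂ_[p])‖ := by
    rw [hcoe, norm_mul, hpn]
  have hpos : 0 < ‖(((p : K.A) * ϖ : K.A) : ℂ_[p])‖ := by
    rw [hnorm]
    exact mul_pos hp0 hR
  have hlt : ‖(((p : K.A) * ϖ : K.A) : ℂ_[p])‖ < ‖(ϖ : ℂ_[p])‖ := by
    rw [hnorm]
    nlinarith
  have hne : ((p : K.A) * ϖ : K.A) ≠ 0 := by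
    intro h0
    rw [h0] at hpos
    simp at hpos
  refine hL3 p n hPP K v ((p : K.A) * ϖ) ϖ hne hlt ?_ φ φ'
    (hgd v _ hself hne hlt) hCTv
  intro ϖ₃ h1 h2
  have h3 : ϖ₃ ≠ 0 := by
    intro h0
    rw [h0] at h1
    simp only [ZeroMemClass.coe_zero, norm_zero] at h1
    linarith
  rcases lt_or_eq_of_le h2 with h4 | h4
  · exact ⟨φ, hgd v ϖ₃ hself h3 h4⟩
  · exact ⟨φ', (hD b ϖ v ϖ₃ hϖ h3 h4.symm hbv φ' hCT).1⟩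

end Pool.Agent.Helper60.FF
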