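import Pool.Agent.Helper24.FF.Stmts

set_option autoImplicit false

/-!
MP_866009_co, module PCN: paths far from a vertex lie in one component.
-/

namespace Pool.Agent.Helper24.FF

open Pool.Agent.Helper64.CT Pool.Agent.Helper64.DT Pool.Agent.Helper64.FL
open Pool.Agent.Helper64.HG (Ovl Model Circ IC HellyCircle ChordModel)

theorem pcn_refl {V : Type} {G : SimpleGraph V} {c x : V} (h : x ∈ Far G c) : Comp G c x x :=
  ⟨h, h, SimpleGraph.Reachable.refl _⟩

theorem pcn_symm {V : Type} {G : SimpleGraph V} {c x y : V} (h : Comp G c x y) :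
    Comp G c y x := by
  obtain ⟨h1, h2, h3⟩ := h
  exact ⟨h2, h1, h3.symm⟩

theorem pcn_trans {V : Type} {G : SimpleGraph V} {c x y z : V} (h : Comp G c x y)
    (h' : Comp G c y z) : Comp G c x z := by
  obtain ⟨h1, h2, h3⟩ := h
  obtain ⟨k1, k2, k3⟩ := h'
  exact ⟨h1, k2, h3.trans k3⟩

theorem pcn_head {V : Type} (G : SimpleGraph V) (c : V) (a : V) (N : List V)
    (hW : Wk G (a :: N)) (hF : ∀ x ∈ a :: N, x ∈ Far G c) : ∀ x ∈ a :: N, Comp G c a x := by
  induction N generalizing a with
  | nil =>
    intro x hx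
    rw [List.mem_singleton] at hx
    rw [hx]
    exact pcn_refl (hF a (by simp))
  | cons b N ih =>
    intro x hx
    have hab : G.Adj a b := hW.1 b rfl
    have h1 : Comp G c a b := by
      refine ⟨hF a (by simp), hF b (by simp), SimpleGraph.Adj.reachable ?_⟩
      exact hab
    rcases List.mem_cons.1 hx with h | h
    · rw [h]
      exact pcn_refl (hF a (by simp))
    · exact pcn_trans h1 (ih b hW.2 (fun y hy => hF y (List.mem_cons_of_mem _ hy)) x h)

theorem st_PCN : ST_PCN := by
  intro V G c N hW hF x hx y hy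
  cases N with
  | nil => simp at hx
  | cons a N =>
    exact pcn_trans (pcn_symm (pcn_head G c a N hW hF x hx)) (pcn_head G c a N hW hF y hy)

end Pool.Agent.Helper24.FF
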