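import Pool.Agent.Helper24.FF.Stmts

set_option autoImplicit false

/-!
MP_866009_co, module RRO: rotation of a ring.
-/

namespace Pool.Agent.Helper24.FF

open Pool.Agent.Helper64.CT Pool.Agent.Helper64.DT Pool.Agent.Helper64.FL
open Pool.Agent.Helper64.HG (Ovl Model Circ IC HellyCircle ChordModel)

theorem rro_inj {m s i j : ℕ} (hi : i < m) (hj : j < m) (h : (i + s) % m = (j + s) % m) :
    i = j := by
  have h1 : i ≡ j [MOD m] := Nat.ModEq.add_right_cancel' s h
  rw [Nat.ModEq, Nat.mod_eq_of_lt hi, Nat.mod_eq_of_lt hj] at h1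
  exact h1

theorem rro_succ (m s i : ℕ) : ((i + 1) % m + s) % m = ((i + s) % m + 1) % m := by
  rw [Nat.mod_add_mod, Nat.mod_add_mod]
  congr 1
  omega

theorem st_RRO : ST_RRO := by
  intro V G m n P s h
  have hm : 0 < m := by
    have := h.m3
    omega
  have hl : ∀ i, (i + s) % m < m := fun i => Nat.mod_lt _ hm
  refine ⟨h.m3, ?_, fun i _ => h.len _ (hl i), fun i _ => h.pth _ (hl i),
    fun i _ => h.fst _ (hl i), ?_, ?_, fun i j _ _ => h.dis _ _ (hl i) (hl j), ?_⟩
  · intro i j hi hj hij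
    exact h.clq _ _ (hl i) (hl j) fun h1 => hij (rro_inj hi hj h1)
  · intro i _ x hx
    show G.Adj (n (((i + 1) % m + s) % m)) x ↔ _
    rw [rro_succ]
    exact h.lst _ (hl i) x hx
  · intro i j hi hj h1 h2 x hx
    refine h.cln _ _ (hl i) (hl j) (fun h3 => h1 (rro_inj hj hi h3)) (fun h3 => h2 ?_) x hx
    rw [← rro_succ] at h3
    exact rro_inj hj (Nat.mod_lt _ hm) h3
  · intro i j hi hj hij
    exact h.sep _ _ (hl i) (hl j) fun h1 => hij (rro_inj hi hj h1)

end Pool.Agent.Helper24.FF
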