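import Pool.Agent.Helper24.FF.Stmts

set_option autoImplicit false

/-!
MP_866009_co, module SBP: replacing an edge by a path in a chord model.
-/

namespace Pool.Agent.Helper24.FF

open Pool.Agent.Helper64.CT Pool.Agent.Helper64.DT Pool.Agent.Helper64.FL
open Pool.Agent.Helper64.HG (Ovl Model Circ IC HellyCircle ChordModel)

/-- `H` with the edge `u v` replaced by the path `u x v` -/
def sbpH {V : Type} (H : SimpleGraph V) (u v x : V) : SimpleGraph V where
  Adj a b := (a ≠ x ∧ b ≠ x ∧ H.Adj a b ∧ ¬ (a = u ∧ b = v) ∧ ¬ (a = v ∧ b = u)) ∨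
    (a = x ∧ b ≠ x ∧ (b = u ∨ b = v)) ∨ (b = x ∧ a ≠ x ∧ (a = u ∨ a = v))
  symm := by
    constructor
    rintro a b (⟨h1, h2, h3, h4, h5⟩ | ⟨h1, h2, h3⟩ | ⟨h1, h2, h3⟩)
    · exact Or.inl ⟨h2, h1, h3.symm, fun h => h5 ⟨h.2, h.1⟩, fun h => h4 ⟨h.2, h.1⟩⟩
    · exact Or.inr (Or.inr ⟨h1, h2, h3⟩)
    · exact Or.inr (Or.inl ⟨h1, h2, h3⟩)
  loopless := by
    constructor
    rintro a (⟨_, _, h3, _, _⟩ | ⟨h1, h2, _⟩ | ⟨h1, h2, _⟩)
    · exact H.loopless.irrefl a h3
    · exact h2 h1
    · exact h2 h1

theorem sbp_ne {V : Type} {H : SimpleGraph V} {u v x a b : V} (ha : a ≠ x) (hb : b ≠ x) :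
    (sbpH H u v x).Adj a b ↔ H.Adj a b ∧ ¬ (a = u ∧ b = v) ∧ ¬ (a = v ∧ b = u) := by
  constructor
  · rintro (⟨_, _, h3, h4, h5⟩ | ⟨h1, _, _⟩ | ⟨h1, _, _⟩)
    · exact ⟨h3, h4, h5⟩
    · exact absurd h1 ha
    · exact absurd h1 hb
  · rintro ⟨h3, h4, h5⟩
    exact Or.inl ⟨ha, hb, h3, h4, h5⟩

theorem sbp_x {V : Type} {H : SimpleGraph V} {u v x b : V} (hb : b ≠ x) :
    (sbpH H u v x).Adj x b ↔ (b = u ∨ b = v) := by
  constructor
  · rintro (⟨h1, _⟩ | ⟨_, _, h3⟩ | ⟨h1, _⟩)
    · exact absurd rfl h1
    · exact h3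
    · exact absurd h1 hb
  · intro h
    exact Or.inr (Or.inl ⟨rfl, hb, h⟩)

/-- the first step: the new graph satisfies the hypotheses of `SB1` -/
theorem sbp_sub {V : Type} {H : SimpleGraph V} {S : Set V} {u v x : V} (hu : u ∈ S) (hv : v ∈ S)
    (hx : x ∉ S) (huv : H.Adj u v) : Sub1 H (sbpH H u v x) S u v x where
  uS := hu
  vS := hv
  xS := hx
  uv := huv
  same := by
    intro y hy z hz h1 h2
    have e1 : y ≠ x := fun h => hx (h ▸ hy)
    have e2 : z ≠ x := fun h => hx (h ▸ hz)
    rw [sbp_ne e1 e2]
    exact ⟨fun h => h.1, fun h => ⟨h, h1, h2⟩⟩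
  nuv := by
    have e1 : u ≠ x := fun h => hx (h ▸ hu)
    have e2 : v ≠ x := fun h => hx (h ▸ hv)
    rw [sbp_ne e1 e2]
    exact fun h => h.2.1 ⟨rfl, rfl⟩
  nx := by
    intro y hy
    have e1 : y ≠ x := fun h => hx (h ▸ hy)
    rw [sbp_x e1]

theorem st_SBP (h1 : ST_SB1) (h2 : ST_IPX) : ST_SBP := by
  intro V H G S u v P
  induction P generalizing H S u with
  | nil =>
    intro _ _ _ _ _ h
    exact absurd rfl h
  | cons x P ih =>
    intro hCE hu hv hne huv _ hI hP hS hdu hdv hcn
    obtain ⟨i1, i2, _, _, _⟩ := h2 V G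
    have hxS : x ∉ S := (hP x (List.mem_cons_self)).1
    have hux : u ≠ x := fun h => hxS (h ▸ hu)
    have hvx : v ≠ x := fun h => hxS (h ▸ hv)
    have hCE' : CE (sbpH H u v x) (insert x S) :=
      h1 V H _ S u v x hCE (sbp_sub hu hv hxS huv) hne hdu hdv hcn
    have hxu : G.Adj x u := by
      have := (i2 [u] (P ++ [v]) x u hI (by simp)).2 (Or.inl rfl)
      exact this
    have hnuv : ¬ G.Adj u v := by
      intro h
      have h3 := (i2 [] ((x :: P) ++ [v]) u v hI (by simp)).1 h
      rcases h3 with h3 | h3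
      · simp at h3
      · simp at h3
        exact hvx h3.symm
    have hnx : ∀ y ∈ S, y ≠ u → y ≠ v → ¬ G.Adj x y := (hP x (List.mem_cons_self)).2
    cases P with
    | nil =>
      have hset : S ∪ LS [x] = insert x S := by
        ext y
        simp [LS, or_comm]
      rw [hset]
      have hxv : G.Adj x v := by
        have := (i2 [u] [v] x v hI (by simp)).2 (Or.inr rfl)
        exact this
      refine h1 V H G S u v x hCE ⟨hu, hv, hxS, huv, hS, hnuv, ?_⟩ hne hdu hdv hcn
      intro y hy
      constructor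
      · intro h
        by_contra hc
        rw [not_or] at hc
        exact hnx y hy hc.1 hc.2 h
      · rintro (rfl | rfl)
        · exact hxu
        · exact hxv
    | cons w P =>
      have hxI : IPt G (x :: ((w :: P) ++ [v])) := (i1 [u] _ hI).2.1
      have hdx : ∀ z ∈ w :: P, z ≠ x := by
        intro z hz
        have h3 := (i1 [u, x] ((w :: P) ++ [v]) hI).2.2 x (by simp) z
          (List.mem_append_left _ hz)
        exact h3.symm
      have hnu : ∀ z ∈ w :: P, ¬ G.Adj z u := by
        intro z hz h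
        have h3 := (i2 [] ((x :: w :: P) ++ [v]) u z hI (by
          simp only [List.nil_append]
          exact List.mem_cons_of_mem _ (List.mem_append_left _ (List.mem_cons_of_mem _ hz)))).1
          h.symm
        rcases h3 with h3 | h3
        · simp at h3
        · simp at h3
          exact hdx z hz h3.symm
      have hnxv : ¬ G.Adj x v := by
        intro h
        have h3 := (i2 [] ((w :: P) ++ [v]) x v hxI (by simp)).1 h
        rcases h3 with h3 | h3
        · simp at h3
        · simp at h3
          exact (hP w (by simp)).1 (h3 ▸ hv)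
      have hset : S ∪ LS (x :: w :: P) = insert x S ∪ LS (w :: P) := by
        ext y
        simp only [LS, Set.mem_union, Set.mem_ofPred_eq, Set.mem_insert_iff, List.mem_cons]
        tauto
      rw [hset]
      refine ih (sbpH H u v x) (insert x S) x hCE' (Set.mem_insert _ _)
        (Set.mem_insert_of_mem _ hv) hvx.symm ((sbp_x hvx).2 (Or.inr rfl)) (by simp) hxI ?_ ?_ ?_
        ?_ ?_
      · intro z hz
        have hz' := hP z (List.mem_cons_of_mem _ hz)
        refine ⟨?_, ?_⟩
        · rintro (h | h)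
          · exact hdx z hz h
          · exact hz'.1 h
        · rintro y (rfl | hy) hyx hyv
          · exact absurd rfl hyx
          · by_cases hyu : y = u
            · rw [hyu]
              exact hnu z hz
            · exact hz'.2 y hy hyu hyv
      · rintro a (ha | ha) b (hb | hb) h3 h4
        · rw [ha, hb]
          exact ⟨fun h => absurd h (G.loopless.irrefl _), fun h =>
            absurd h ((sbpH H u v x).loopless.irrefl _)⟩
        · have hba : b ≠ x := fun h => hxS (h ▸ hb)
          rw [ha, sbp_x hba]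
          by_cases hbu : b = u
          · subst hbu
            exact ⟨fun _ => Or.inl rfl, fun _ => hxu⟩
          · have hbv : b ≠ v := fun h => h3 ⟨ha, h⟩
            exact ⟨fun h => absurd h (hnx b hb hbu hbv), fun h => by
              rcases h with h | h
              · exact absurd h hbu
              · exact absurd h hbv⟩
        · have hab : a ≠ x := fun h => hxS (h ▸ ha)
          rw [hb, G.adj_comm, (sbpH H u v x).adj_comm, sbp_x hab]
          by_cases hau : a = u
          · subst hau
            exact ⟨fun _ => Or.inl rfl, fun _ => hxu⟩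
          · have hav : a ≠ v := fun h => h4 ⟨h, hb⟩
            exact ⟨fun h => absurd h (hnx a ha hau hav), fun h => by
              rcases h with h | h
              · exact absurd h hau
              · exact absurd h hav⟩
        · have hax : a ≠ x := fun h => hxS (h ▸ ha)
          have hbx : b ≠ x := fun h => hxS (h ▸ hb)
          rw [sbp_ne hax hbx]
          by_cases h5 : a = u ∧ b = v
          · obtain ⟨rfl, rfl⟩ := h5
            exact ⟨fun h => absurd h hnuv, fun h => absurd ⟨rfl, rfl⟩ h.2.1⟩
          · by_cases h6 : a = v ∧ b = u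
            · obtain ⟨rfl, rfl⟩ := h6
              exact ⟨fun h => absurd h.symm hnuv, fun h => absurd ⟨rfl, rfl⟩ h.2.2⟩
            · rw [hS a ha b hb h5 h6]
              exact ⟨fun h => ⟨h, h5, h6⟩, fun h => h.1⟩
      · have key : ∀ y ∈ insert x S, y ≠ v → (sbpH H u v x).Adj x y → y = u := by
          intro y _ hyv h
          have hyx : y ≠ x := fun h3 => (sbpH H u v x).loopless.irrefl x (by rw [h3] at h; exact h)
          rcases (sbp_x hyx).1 h with h | h
          · exact h
          · exact absurd h hyv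
        intro y hy z hz hyv hzv ay az
        rw [key y hy hyv ay, key z hz hzv az]
      · have key : ∀ y ∈ insert x S, y ≠ x → (sbpH H u v x).Adj v y →
            y ∈ S ∧ y ≠ u ∧ H.Adj v y := by
          rintro y (h' | hy) hyx h
          · exact absurd h' hyx
          · have h3 := (sbp_ne hvx hyx).1 h
            exact ⟨hy, fun h4 => h3.2.2 ⟨rfl, h4⟩, h3.1⟩
        intro y hy z hz hyx hzx ay az
        obtain ⟨a1, a2, a3⟩ := key y hy hyx ay
        obtain ⟨b1, b2, b3⟩ := key z hz hzx az
        exact hdv y a1 z b1 a2 b2 a3 b3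
      · rintro y (hyx | hy) ⟨h3, h4⟩
        · rw [hyx] at h3
          exact (sbpH H u v x).loopless.irrefl _ h3
        · have hyx : y ≠ x := fun h => hxS (h ▸ hy)
          have h5 := (sbp_ne hvx hyx).1 h4
          rcases (sbp_x hyx).1 h3 with h | h
          · exact h5.2.2 ⟨rfl, h⟩
          · rw [h] at h5
            exact H.loopless.irrefl _ h5.1

end Pool.Agent.Helper24.FF
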